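import Mathlib

set_option autoImplicit false

namespace Pool.Agent.Results.MP_17c227_co.Counter

open Finset Matrix

def row (v : ℕ) : ℕ := if v < 16 then v / 4 else 4 + (v - 16) / 3

def col (v : ℕ) : ℕ := if v < 16 then v % 4 else 4 + (v - 16) / 9 * 3 + (v - 16) % 3

/-- `K₄ □ K₄` together with two copies of `K₃ □ K₃` -/
def G : SimpleGraph (Fin 34) where
  Adj u v := u ≠ v ∧ (row u = row v ∨ col u = col v)
  symm := ⟨fun _ _ h => ⟨h.1.symm, h.2.imp Eq.symm Eq.symm⟩⟩
  loopless := ⟨fun _ h => h.1 rfl⟩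

instance : DecidableRel G.Adj := fun u v => inferInstanceAs (Decidable (u ≠ v ∧ _))

def cl (k : ℕ) : ℕ := [0, 1, 2, 4, 5, 7, 8].getD (k - 10) 0

def lc (k : ℕ) : ℕ := [3, 3, 3, 3, 6, 6, 6, 9, 9, 9, 3, 3, 3, 6, 6, 9, 9].getD k 0

def P : Matrix (Fin 34) (Fin 17) ℤ := fun v k =>
  if k.1 < 10 then (if row v = k then 1 else 0) else if col v = cl k then 1 else 0

def Q : Matrix (Fin 17) (Fin 34) ℤ := fun k v =>
  P v k + if col v = lc k then (if k.1 < 10 then 1 else -1) else 0

lemma fac : G.adjMatrix ℤ + 2 = P * Q := by decide +kernel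

lemma few {n : Type} [Fintype n] [DecidableEq n] (A : Matrix n n ℝ) (hA : A.IsHermitian) (c : ℝ) :
    #{i | hA.eigenvalues₀ i ≠ -c} = (A + c • 1).rank := by
  have : A + c • 1 = Unitary.conjStarAlgAut ℝ _ hA.eigenvectorUnitary
      (diagonal fun i => hA.eigenvalues i + c) := by
    conv_lhs => rw [hA.spectral_theorem]
    rw [← diagonal_add, map_add, ← smul_one_eq_diagonal, map_smul, map_one]
    rfl
  rw [this, Unitary.conjStarAlgAut_apply, ← Unitary.coe_star]
  simp only [rank_mul_eq_left_of_isUnit_det, rank_mul_eq_right_of_isUnit_det,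
    UnitaryGroup.det_isUnit, rank_diagonal, Fintype.card_subtype]
  exact card_equiv (Fintype.equivOfCardEq (Fintype.card_fin _)) fun i => by
    simp [IsHermitian.eigenvalues, add_eq_zero_iff_eq_neg]

theorem result : ∃ (d : ℝ) (n : ℕ) (G : SimpleGraph (Fin n)) (_ : DecidableRel G.Adj)
    (hG : (G.adjMatrix ℝ).IsHermitian) (l : Fin (Fintype.card (Fin n))), 2 ≤ d ∧ 1 ≤ n ∧
    2 * (#G.edgeFinset : ℝ) / n ≤ d ∧ (l : ℕ) + 1 = ⌈((n : ℝ) + 1) / 2⌉₊ ∧
    √(d - 1) < |hG.eigenvalues₀ l| := by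
  have hG : (G.adjMatrix ℝ).IsHermitian := G.isSymm_adjMatrix
  refine ⟨84 / 17, 34, G, inferInstance, hG, ⟨17, by simp⟩, by norm_num, by norm_num, ?_, ?_, ?_⟩
  · have : 2 * #G.edgeFinset = 168 := by
      rw [← G.sum_degrees_eq_twice_card_edges]; decide +kernel
    rw [show #G.edgeFinset = 84 by omega]; norm_num
  · rw [eq_comm, Nat.ceil_eq_iff] <;> norm_num
  · have h1 := few _ hG 2
    have h2 : G.adjMatrix ℝ + (2 : ℝ) • 1 = (P * Q).map (Int.castRingHom ℝ) := by
      rw [← fac]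
      ext i j
      by_cases h : i = j <;> simp [h, ofNat_apply, one_apply]
    have h3 : ((P * Q).map (Int.castRingHom ℝ)).rank ≤ 17 := by
      rw [Matrix.map_mul]; exact (rank_mul_le_left _ _).trans (rank_le_width _)
    have h4 : hG.eigenvalues₀ ⟨17, by simp⟩ ≤ -2 := by
      by_contra! h
      have := card_le_card (show Iic (⟨17, by simp⟩ : Fin (Fintype.card (Fin 34))) ⊆
        univ.filter (hG.eigenvalues₀ · ≠ -2) from fun i hi => by
          simpa using (h.trans_le (hG.eigenvalues₀_antitone (mem_Iic.mp hi))).ne')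
      rw [h1, h2, Fin.card_Iic] at this
      simp only at this
      omega
    rw [abs_of_neg (by linarith), Real.sqrt_lt' (by linarith)]
    nlinarith

end Pool.Agent.Results.MP_17c227_co.Counter
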